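import Pool.Agent.Helper58.DH.Goals2

/-!
# Packet F_POS2 (MP_06d934_gt, project DH): the remaining parameters of the family C.
-/

set_option autoImplicit false

namespace Pool.Agent.Helper54.DH

open Pool.Agent.Helper58.DH

/-- The polynomial inequality. -/
theorem poly_ineq (q r : ℤ) (hr : 1 ≤ r) (hq : r ^ 2 + 1 ≤ q) :
    30 * q * (r * (q - r ^ 2)) ≤ (q + r) ^ 4 := by
  have hq0 : 0 < q := by nlinarith
  have key : 0 ≤ q ^ 2 * (q ^ 2 + 4 * q * r + 6 * r ^ 2 - 30 * r) + 34 * q * r ^ 3 + r ^ 4 := by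
    by_cases h5 : 5 ≤ r
    · have h1 : 0 ≤ 6 * r ^ 2 - 30 * r := by nlinarith
      have h2 : 0 ≤ q ^ 2 + 4 * q * r + 6 * r ^ 2 - 30 * r := by
        have : 0 ≤ q * r := by positivity
        nlinarith [sq_nonneg q]
      have h3 : 0 ≤ q ^ 2 * (q ^ 2 + 4 * q * r + 6 * r ^ 2 - 30 * r) :=
        mul_nonneg (sq_nonneg q) h2
      have h4 : 0 ≤ 34 * q * r ^ 3 := by positivity
      have h6 : 0 ≤ r ^ 4 := by positivity
      linarith
    · have h4 : r ≤ 4 := by omega
      interval_cases r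
      · by_cases h6 : 4 ≤ q
        · have h7 : 0 ≤ q ^ 2 + 4 * q * 1 + 6 * 1 ^ 2 - 30 * 1 := by nlinarith
          have h8 := mul_nonneg (sq_nonneg q) h7
          nlinarith
        · have h9 : q ≤ 3 := by omega
          have h10 : 2 ≤ q := by omega
          interval_cases q <;> norm_num
      · have h7 : 0 ≤ q ^ 2 + 4 * q * 2 + 6 * 2 ^ 2 - 30 * 2 := by nlinarith
        have h8 := mul_nonneg (sq_nonneg q) h7
        nlinarith
      · have h7 : 0 ≤ q ^ 2 + 4 * q * 3 + 6 * 3 ^ 2 - 30 * 3 := by nlinarith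
        have h8 := mul_nonneg (sq_nonneg q) h7
        nlinarith
      · have h7 : 0 ≤ q ^ 2 + 4 * q * 4 + 6 * 4 ^ 2 - 30 * 4 := by nlinarith
        have h8 := mul_nonneg (sq_nonneg q) h7
        nlinarith
  have e : (q + r) ^ 4 - 30 * q * (r * (q - r ^ 2)) =
      q ^ 2 * (q ^ 2 + 4 * q * r + 6 * r ^ 2 - 30 * r) + 34 * q * r ^ 3 + r ^ 4 := by ring
  linarith

theorem f_pos2 (hC : Pool.Agent.Helper58.DH.C_POS) : Pool.Agent.Helper58.DH.F_POS2 := by
  intro p q r hq hqp hr h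
  have hr' : (1 : ℤ) ≤ r := by exact_mod_cast hr
  have hq' : (1 : ℤ) ≤ q := by exact_mod_cast hq
  have hqp' : (q : ℤ) ≤ p := by exact_mod_cast hqp
  -- the integral consequences
  have hpos : 0 < ((p : ℤ) - 1) * r * ((q : ℤ) - r ^ 2) := lt_of_le_of_lt (by positivity) h
  have hqr : (r : ℤ) ^ 2 + 1 ≤ q := by
    by_contra hcon
    have h1 : (q : ℤ) - r ^ 2 ≤ 0 := by omega
    have h2 : 0 ≤ ((p : ℤ) - 1) * r := mul_nonneg (by omega) (by omega)
    have h3 : ((p : ℤ) - 1) * r * ((q : ℤ) - r ^ 2) ≤ 0 := mul_nonpos_of_nonneg_of_nonpos h2 h1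
    omega
  have hX : 0 < (r : ℤ) * ((q : ℤ) - r ^ 2) := mul_pos (by omega) (by omega)
  have h30 : 30 * (q : ℤ) ≤ p := by
    have h1 := poly_ineq q r hr' hqr
    have h2 : 30 * (q : ℤ) * (r * ((q : ℤ) - r ^ 2)) < ((p : ℤ) - 1) * (r * ((q : ℤ) - r ^ 2)) := by
      calc 30 * (q : ℤ) * (r * ((q : ℤ) - r ^ 2)) ≤ ((q : ℤ) + r) ^ 4 := h1
        _ < ((p : ℤ) - 1) * r * ((q : ℤ) - r ^ 2) := h
        _ = ((p : ℤ) - 1) * (r * ((q : ℤ) - r ^ 2)) := by ring
    have h3 := lt_of_mul_lt_mul_right h2 hX.le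
    omega
  have h2r : 2 * (r : ℤ) ≤ q := by nlinarith [sq_nonneg ((r : ℤ) - 1)]
  -- real versions
  have rr : (1 : ℝ) ≤ r := by exact_mod_cast hr
  have rq : (1 : ℝ) ≤ q := by exact_mod_cast hq
  have rqp : (q : ℝ) ≤ p := by exact_mod_cast hqp
  have r30 : 30 * (q : ℝ) ≤ p := by exact_mod_cast h30
  have r2r : 2 * (r : ℝ) ≤ q := by exact_mod_cast h2r
  intro k
  have hk : k = 2 * p + 2 * q + 2 * r + 2 := by
    simp only [k]; push_cast; ring
  have hk0 : 0 < k := by rw [hk]; positivity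
  have hk0' : k ≠ 0 := hk0.ne'
  clear_value k
  have hcast : (((2 * r : ℕ) : ℝ)) = 2 * r := by push_cast; ring
  rw [hcast]
  have p0 : (0 : ℝ) < p := by linarith
  have q0 : (0 : ℝ) < q := by linarith
  have r0 : (0 : ℝ) < r := by linarith
  refine ⟨⟨div_pos p0 hk0, div_pos q0 hk0, by positivity, by positivity, ?_, ?_, ?_, ?_⟩, ?_⟩
  · field_simp
    rw [hk]
    ring
  · exact div_le_div_of_nonneg_right r2r hk0.le
  · rw [← mul_div_assoc]
    exact div_le_div_of_nonneg_right (by linarith) hk0.le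
  · rw [← mul_div_assoc]
    exact div_le_div_of_nonneg_right r30 hk0.le
  · intro τ hτ
    obtain ⟨h0, h1⟩ := hτ
    refine hC.2 (q / k) (p / k) (2 * r / k) (τ * (1 / k)) (div_pos q0 hk0) (div_pos p0 hk0)
      (by positivity) (by positivity) ?_ ?_ ?_ ?_
    · rw [mul_one_div]
      exact div_le_div_of_nonneg_right (by linarith) hk0.le
    · rw [mul_one_div]
      exact div_le_div_of_nonneg_right (by linarith) hk0.le
    · rw [mul_one_div, ← mul_div_assoc]
      exact div_le_div_of_nonneg_right (by linarith) hk0.le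
    · have e1 : ((q : ℝ) / k - τ * (1 / k)) * (2 * r / k) * (4 * (p / k) * (τ * (1 / k)) -
          (2 * r / k) ^ 2) = ((q - τ) * (2 * r) * (4 * p * τ - 4 * r ^ 2)) / k ^ 4 := by
        field_simp
        ring
      have e2 : 8 * ((p : ℝ) / k + 2 * r / k / 2) ^ 4 = (8 * (p + r) ^ 4) / k ^ 4 := by
        field_simp
      rw [e1, e2]
      refine div_le_div_of_nonneg_right ?_ (by positivity)
      have hqτ : 0 ≤ (q : ℝ) - τ := by linarith
      have hrhs : 8 * (p : ℝ) ^ 2 * r ≤ 8 * (p + r) ^ 4 := by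
        have a1 : (p : ℝ) ^ 2 ≤ (p + r) ^ 2 := by
          have : (0 : ℝ) ≤ p := by linarith
          nlinarith
        have a2 : (r : ℝ) ≤ (p + r) ^ 2 := by nlinarith
        have a3 : (p : ℝ) ^ 2 * r ≤ (p + r) ^ 2 * (p + r) ^ 2 :=
          mul_le_mul a1 a2 (by linarith) (by positivity)
        nlinarith
      refine le_trans ?_ hrhs
      by_cases hs : 4 * (p : ℝ) * τ - 4 * r ^ 2 ≤ 0
      · have : ((q : ℝ) - τ) * (2 * r) * (4 * p * τ - 4 * r ^ 2) ≤ 0 :=
          mul_nonpos_of_nonneg_of_nonpos (by positivity) hs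
        refine le_trans this (by positivity)
      · push Not at hs
        have b1 : ((q : ℝ) - τ) * (2 * r) ≤ p * (2 * r) :=
          mul_le_mul_of_nonneg_right (by linarith) (by linarith)
        have b2 : 4 * (p : ℝ) * τ - 4 * r ^ 2 ≤ 4 * p := by
          have : (p : ℝ) * τ ≤ p := by nlinarith
          nlinarith [sq_nonneg (r : ℝ)]
        have b3 : ((q : ℝ) - τ) * (2 * r) * (4 * p * τ - 4 * r ^ 2) ≤ (p * (2 * r)) * (4 * p) :=
          mul_le_mul b1 b2 hs.le (by positivity)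
        linarith

end Pool.Agent.Helper54.DH
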